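import Pool.Agent.MP_be51b2_an.Defs

-- part MP_be51b2_an.Basic
section

/-!
Basic constructions of Banach lattices: closed sublattices, `ℓ_∞`-products, `ℓ_1^2`.
-/

open scoped ENNReal

set_option linter.unusedSectionVars false

namespace Pool.Agent.MP_be51b2_an

instance : IsBanachLattice ℝ where

/-- transfer of the Banach lattice axioms along an injective map into an ordered module -/
theorem ordered_of_injective {X Y : Type*} [AddCommGroup X] [Module ℝ X] [Lattice X]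
    [AddCommGroup Y] [Module ℝ Y] [Lattice Y] [IsOrderedAddMonoid Y] [PosSMulMono ℝ Y]
    (f : X →ₗ[ℝ] Y) (hle : ∀ x y, x ≤ y ↔ f x ≤ f y) :
    IsOrderedAddMonoid X ∧ PosSMulMono ℝ X := by
  refine ⟨{ add_le_add_left := fun a b hab c => ?_ }, ⟨fun a ha b c hbc => ?_⟩⟩
  · rw [hle] at hab ⊢
    simp only [map_add]
    gcongr
  · rw [hle] at hbc ⊢
    simp only [map_smul]
    exact smul_le_smul_of_nonneg_left hbc ha

section Hom

variable {X Y Z : Type*} [NormedAddCommGroup X] [NormedSpace ℝ X] [Lattice X]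
  [NormedAddCommGroup Y] [NormedSpace ℝ Y] [Lattice Y]
  [NormedAddCommGroup Z] [NormedSpace ℝ Z] [Lattice Z]

theorem isLatticeHom_of_sup [IsBanachLattice X] [IsBanachLattice Y] {T : X →L[ℝ] Y}
    (h : ∀ x y, T (x ⊔ y) = T x ⊔ T y) : IsLatticeHom T := by
  intro x y
  refine ⟨h x y, ?_⟩
  have e1 : x ⊓ y = -(-x ⊔ -y) := by rw [neg_sup, neg_neg, neg_neg]
  rw [e1, map_neg, h, map_neg, map_neg, neg_sup, neg_neg, neg_neg]

theorem IsLatticeHom.comp {S : Y →L[ℝ] Z} {T : X →L[ℝ] Y} (hS : IsLatticeHom S)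
    (hT : IsLatticeHom T) : IsLatticeHom (S.comp T) := fun x y => by
  simp only [ContinuousLinearMap.comp_apply, (hT x y).1, (hT x y).2, (hS _ _).1, (hS _ _).2,
    and_self]

theorem isLatticeHom_id : IsLatticeHom (ContinuousLinearMap.id ℝ X) := fun _ _ => ⟨rfl, rfl⟩

theorem IsLatticeHom.map_abs {T : X →L[ℝ] Y} (hT : IsLatticeHom T) (x : X) :
    T |x| = |T x| := by
  rw [abs, (hT _ _).1, map_neg, abs]

theorem IsLatticeHom.mono {T : X →L[ℝ] Y} (hT : IsLatticeHom T) {x y : X} (h : x ≤ y) :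
    T x ≤ T y := by
  rw [← sup_eq_right, ← (hT _ _).1, sup_eq_right.2 h]

end Hom

section Sub

variable {X : Type} [NormedAddCommGroup X] [NormedSpace ℝ X] [Lattice X] [IsBanachLattice X]

/-- closed sublattices -/
structure CSub (X : Type) [NormedAddCommGroup X] [NormedSpace ℝ X] [Lattice X] where
  sub : Submodule ℝ X
  sup_mem : ∀ x y, x ∈ sub → y ∈ sub → x ⊔ y ∈ sub
  closed : IsClosed (sub : Set X)

theorem CSub.inf_mem (S : CSub X) (x y : X) (hx : x ∈ S.sub) (hy : y ∈ S.sub) :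
    x ⊓ y ∈ S.sub := by
  have e1 : x ⊓ y = -(-x ⊔ -y) := by rw [neg_sup, neg_neg, neg_neg]
  rw [e1]
  exact S.sub.neg_mem (S.sup_mem _ _ (S.sub.neg_mem hx) (S.sub.neg_mem hy))

/-- the underlying type of a closed sublattice -/
def CSub.T (S : CSub X) : Type := S.sub

noncomputable instance (S : CSub X) : NormedAddCommGroup S.T :=
  inferInstanceAs (NormedAddCommGroup S.sub)

noncomputable instance (S : CSub X) : NormedSpace ℝ S.T :=
  inferInstanceAs (NormedSpace ℝ S.sub)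

instance (S : CSub X) : Lattice S.T :=
  Subtype.lattice (P := fun x => x ∈ S.sub) (fun x y => S.sup_mem x y) (fun x y => S.inf_mem x y)

/-- the inclusion -/
noncomputable def CSub.incl (S : CSub X) : S.T →L[ℝ] X := S.sub.subtypeL

theorem CSub.incl_hom (S : CSub X) : IsLatticeHom S.incl := fun _ _ => ⟨rfl, rfl⟩

theorem CSub.norm_incl (S : CSub X) (x : S.T) : ‖S.incl x‖ = ‖x‖ := rfl

theorem CSub.incl_le (S : CSub X) (x y : S.T) : x ≤ y ↔ S.incl x ≤ S.incl y := Iff.rfl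

theorem CSub.incl_injective (S : CSub X) : Function.Injective S.incl := Subtype.val_injective

theorem CSub.incl_mem (S : CSub X) (x : S.T) : S.incl x ∈ S.sub := x.2

/-- an element of the sublattice -/
def CSub.mk' (S : CSub X) (x : X) (hx : x ∈ S.sub) : S.T := ⟨x, hx⟩

theorem CSub.incl_mk' (S : CSub X) (x : X) (hx : x ∈ S.sub) : S.incl (S.mk' x hx) = x := rfl

instance (S : CSub X) : IsBanachLattice S.T where
  toIsOrderedAddMonoid := (ordered_of_injective (S.incl : S.T →ₗ[ℝ] X) S.incl_le).1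
  toPosSMulMono := (ordered_of_injective (S.incl : S.T →ₗ[ℝ] X) S.incl_le).2
  solid := fun x y h => by
    rw [← S.norm_incl, ← S.norm_incl]
    refine norm_le_norm_of_abs_le_abs ?_
    rw [← S.incl_hom.map_abs, ← S.incl_hom.map_abs]
    exact S.incl_hom.mono h
  toCompleteSpace := S.closed.completeSpace_coe

end Sub

/-- bundled Banach lattices -/
structure BL : Type 1 where
  car : Type
  [g : NormedAddCommGroup car]
  [s : NormedSpace ℝ car]
  [l : Lattice car]
  [b : IsBanachLattice car]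

attribute [instance] BL.g BL.s BL.l BL.b

section Linf

variable {J : Type} (X : J → BL)

/-- the `ℓ_∞`-product -/
def Linf : Type := lp (fun j => (X j).car) ∞

noncomputable instance : NormedAddCommGroup (Linf X) :=
  inferInstanceAs (NormedAddCommGroup (lp (fun j => (X j).car) ∞))

noncomputable instance : NormedSpace ℝ (Linf X) :=
  inferInstanceAs (NormedSpace ℝ (lp (fun j => (X j).car) ∞))

instance : CompleteSpace (Linf X) :=
  inferInstanceAs (CompleteSpace (lp (fun j => (X j).car) ∞))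

/-- coordinates -/
def Linf.co : Linf X →ₗ[ℝ] (∀ j, (X j).car) where
  toFun x := fun j => (show lp (fun j => (X j).car) ∞ from x) j
  map_add' _ _ := rfl
  map_smul' _ _ := rfl

theorem Linf.co_injective : Function.Injective (Linf.co X) := fun _ _ h => lp.ext h

theorem Linf.norm_co_le (x : Linf X) (j : J) : ‖Linf.co X x j‖ ≤ ‖x‖ :=
  lp.norm_apply_le_norm ENNReal.top_ne_zero (show lp (fun j => (X j).car) ∞ from x) j

theorem Linf.norm_le (x : Linf X) {C : ℝ} (hC : 0 ≤ C) (h : ∀ j, ‖Linf.co X x j‖ ≤ C) :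
    ‖x‖ ≤ C :=
  lp.norm_le_of_forall_le (f := (show lp (fun j => (X j).car) ∞ from x)) hC h

/-- a bounded family as an element of the product -/
def Linf.mk (x : ∀ j, (X j).car) (C : ℝ) (h : ∀ j, ‖x j‖ ≤ C) : Linf X :=
  (⟨x, memℓp_infty ⟨C, by rintro _ ⟨j, rfl⟩; exact h j⟩⟩ : lp (fun j => (X j).car) ∞)

theorem Linf.co_mk (x : ∀ j, (X j).car) (C : ℝ) (h : ∀ j, ‖x j‖ ≤ C) :
    Linf.co X (Linf.mk X x C h) = x := rfl

noncomputable instance : Max (Linf X) :=
  ⟨fun x y => Linf.mk X (Linf.co X x ⊔ Linf.co X y) (‖x‖ + ‖y‖) fun j =>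
    (norm_sup_le_add _ _).trans (add_le_add (Linf.norm_co_le X x j) (Linf.norm_co_le X y j))⟩

noncomputable instance : Min (Linf X) :=
  ⟨fun x y => Linf.mk X (Linf.co X x ⊓ Linf.co X y) (‖x‖ + ‖y‖) fun j =>
    (norm_inf_le_add _ _).trans (add_le_add (Linf.norm_co_le X x j) (Linf.norm_co_le X y j))⟩

instance : LE (Linf X) := ⟨fun x y => Linf.co X x ≤ Linf.co X y⟩
instance : LT (Linf X) := ⟨fun x y => Linf.co X x < Linf.co X y⟩

noncomputable instance : Lattice (Linf X) :=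
  (Linf.co_injective X).lattice _ Iff.rfl Iff.rfl (fun _ _ => rfl) (fun _ _ => rfl)

theorem Linf.co_sup (x y : Linf X) : Linf.co X (x ⊔ y) = Linf.co X x ⊔ Linf.co X y := rfl

theorem Linf.le_iff (x y : Linf X) : x ≤ y ↔ Linf.co X x ≤ Linf.co X y := Iff.rfl

instance : IsBanachLattice (Linf X) where
  toIsOrderedAddMonoid := (ordered_of_injective (Linf.co X) (Linf.le_iff X)).1
  toPosSMulMono := (ordered_of_injective (Linf.co X) (Linf.le_iff X)).2
  solid := fun x y h => by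
    refine Linf.norm_le X x (norm_nonneg _) fun j => le_trans ?_ (Linf.norm_co_le X y j)
    refine norm_le_norm_of_abs_le_abs ?_
    have := (Linf.le_iff X _ _).1 h j
    rw [abs, abs, Linf.co_sup, Linf.co_sup, map_neg, map_neg] at this
    exact this

end Linf

/-- the plane with the `ℓ_1` norm -/
def L12 : Type := WithLp 1 (ℝ × ℝ)

noncomputable instance : NormedAddCommGroup L12 :=
  inferInstanceAs (NormedAddCommGroup (WithLp 1 (ℝ × ℝ)))

noncomputable instance : NormedSpace ℝ L12 :=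
  inferInstanceAs (NormedSpace ℝ (WithLp 1 (ℝ × ℝ)))

instance : CompleteSpace L12 := inferInstanceAs (CompleteSpace (WithLp 1 (ℝ × ℝ)))

/-- coordinates -/
noncomputable def L12.co : L12 ≃L[ℝ] ℝ × ℝ := WithLp.prodContinuousLinearEquiv 1 ℝ ℝ ℝ

theorem L12.norm_eq (x : L12) : ‖x‖ = |(L12.co x).1| + |(L12.co x).2| :=
  WithLp.prod_norm_eq_of_L1 (show WithLp 1 (ℝ × ℝ) from x)

noncomputable instance : Max L12 := ⟨fun x y => L12.co.symm (L12.co x ⊔ L12.co y)⟩
noncomputable instance : Min L12 := ⟨fun x y => L12.co.symm (L12.co x ⊓ L12.co y)⟩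
noncomputable instance : LE L12 := ⟨fun x y => L12.co x ≤ L12.co y⟩
noncomputable instance : LT L12 := ⟨fun x y => L12.co x < L12.co y⟩

noncomputable instance : Lattice L12 :=
  L12.co.injective.lattice _ Iff.rfl Iff.rfl (fun _ _ => L12.co.apply_symm_apply _)
    (fun _ _ => L12.co.apply_symm_apply _)

theorem L12.co_sup (x y : L12) : L12.co (x ⊔ y) = L12.co x ⊔ L12.co y :=
  L12.co.apply_symm_apply _

theorem L12.le_iff (x y : L12) : x ≤ y ↔ L12.co x ≤ L12.co y := Iff.rfl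

instance : IsBanachLattice L12 where
  toIsOrderedAddMonoid :=
    (ordered_of_injective (L12.co.toLinearEquiv : L12 →ₗ[ℝ] ℝ × ℝ) L12.le_iff).1
  toPosSMulMono := (ordered_of_injective (L12.co.toLinearEquiv : L12 →ₗ[ℝ] ℝ × ℝ) L12.le_iff).2
  solid := fun x y h => by
    have := (L12.le_iff _ _).1 h
    rw [abs, abs, L12.co_sup, L12.co_sup, map_neg, map_neg] at this
    rw [L12.norm_eq, L12.norm_eq]
    exact add_le_add this.1 this.2

/-- a pair of real homomorphisms as a map into `ℓ_1^2` -/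
noncomputable def pairMap {P : Type} [NormedAddCommGroup P] [NormedSpace ℝ P]
    (φ ψ : P →L[ℝ] ℝ) : P →L[ℝ] L12 :=
  (L12.co.symm : ℝ × ℝ →L[ℝ] L12).comp (φ.prod ψ)

theorem co_pairMap {P : Type} [NormedAddCommGroup P] [NormedSpace ℝ P]
    (φ ψ : P →L[ℝ] ℝ) (x : P) : L12.co (pairMap φ ψ x) = (φ x, ψ x) :=
  L12.co.apply_symm_apply _

theorem norm_pairMap_apply {P : Type} [NormedAddCommGroup P] [NormedSpace ℝ P]
    (φ ψ : P →L[ℝ] ℝ) (x : P) : ‖pairMap φ ψ x‖ = |φ x| + |ψ x| := by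
  rw [L12.norm_eq, co_pairMap]

theorem pairMap_hom {P : Type} [NormedAddCommGroup P] [NormedSpace ℝ P] [Lattice P]
    [IsBanachLattice P] {φ ψ : P →L[ℝ] ℝ} (hφ : IsLatticeHom φ) (hψ : IsLatticeHom ψ) :
    IsLatticeHom (pairMap φ ψ) := by
  refine isLatticeHom_of_sup fun x y => L12.co.injective ?_
  rw [L12.co_sup, co_pairMap, co_pairMap, co_pairMap, (hφ x y).1, (hψ x y).1]
  rfl

end Pool.Agent.MP_be51b2_an

end

-- part MP_be51b2_an.Free
section

/-!
The free Banach lattice on a family of positive generators indexed by `ℝ`.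
-/

set_option linter.unusedSectionVars false

namespace Pool.Agent.MP_be51b2_an

/-- lattice-linear terms in variables indexed by `ℝ` -/
inductive Tm : Type
  | var : ℝ → Tm
  | zero : Tm
  | add : Tm → Tm → Tm
  | smul : ℝ → Tm → Tm
  | sup : Tm → Tm → Tm

/-- evaluation of terms -/
def eval {X : Type} [AddCommGroup X] [Module ℝ X] [Lattice X] (f : ℝ → X) : Tm → X
  | Tm.var a => f a
  | Tm.zero => 0
  | Tm.add s t => eval f s + eval f t
  | Tm.smul c t => c • eval f t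
  | Tm.sup s t => eval f s ⊔ eval f t

theorem map_eval {X Y : Type} [AddCommGroup X] [Module ℝ X] [Lattice X]
    [AddCommGroup Y] [Module ℝ Y] [Lattice Y] (T : X →ₗ[ℝ] Y)
    (hT : ∀ x y, T (x ⊔ y) = T x ⊔ T y) (f : ℝ → X) :
    ∀ t, T (eval f t) = eval (fun a => T (f a)) t
  | Tm.var a => rfl
  | Tm.zero => map_zero T
  | Tm.add s t => by simp only [eval, map_add, map_eval T hT f s, map_eval T hT f t]
  | Tm.smul c t => by simp only [eval, map_smul, map_eval T hT f t]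
  | Tm.sup s t => by simp only [eval, hT, map_eval T hT f s, map_eval T hT f t]

/-- the variables of a term -/
def vars : Tm → Set ℝ
  | Tm.var a => {a}
  | Tm.zero => ∅
  | Tm.add s t => vars s ∪ vars t
  | Tm.smul _ t => vars t
  | Tm.sup s t => vars s ∪ vars t

theorem vars_countable : ∀ t, (vars t).Countable
  | Tm.var a => Set.countable_singleton a
  | Tm.zero => Set.countable_empty
  | Tm.add s t => (vars_countable s).union (vars_countable t)
  | Tm.smul _ t => vars_countable t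
  | Tm.sup s t => (vars_countable s).union (vars_countable t)

theorem eval_eq_zero (f : ℝ → ℝ) : ∀ t, (∀ a ∈ vars t, f a = 0) → eval f t = 0
  | Tm.var a => fun h => h a rfl
  | Tm.zero => fun _ => rfl
  | Tm.add s t => fun h => by
    simp only [eval, eval_eq_zero f s fun a ha => h a (Or.inl ha),
      eval_eq_zero f t fun a ha => h a (Or.inr ha), add_zero]
  | Tm.smul c t => fun h => by simp only [eval, eval_eq_zero f t h, smul_zero]
  | Tm.sup s t => fun h => by
    simp only [eval, eval_eq_zero f s fun a ha => h a (Or.inl ha),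
      eval_eq_zero f t fun a ha => h a (Or.inr ha), sup_idem]

theorem exists_term (x : Tm →₀ ℝ) : ∃ t : Tm, ∀ (X : Type) [AddCommGroup X] [Module ℝ X]
    [Lattice X] (f : ℝ → X), eval f t = Finsupp.linearCombination ℝ (eval f) x := by
  induction x using Finsupp.induction_linear with
  | zero => exact ⟨Tm.zero, fun X _ _ _ f => by simp [eval]⟩
  | add x y hx hy =>
    obtain ⟨s, hs⟩ := hx
    obtain ⟨t, ht⟩ := hy
    exact ⟨Tm.add s t, fun X _ _ _ f => by simp only [eval, map_add, hs X f, ht X f]⟩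
  | single t c => exact ⟨Tm.smul c t, fun X _ _ _ f => by simp [eval]⟩

/-- seminorms on terms that come from some Banach lattice -/
def Good (ν : Tm → ℝ) : Prop :=
  ∃ (X : BL) (f : ℝ → X.car), (∀ a, 0 ≤ f a ∧ ‖f a‖ ≤ 1) ∧ ∀ t, ν t = ‖eval f t‖

/-- index set -/
def Idx : Type := {ν : Tm → ℝ // Good ν}

/-- chosen witnesses -/
noncomputable def wit (ν : Idx) : BL := ν.2.choose

/-- chosen generators -/
noncomputable def witf (ν : Idx) : ℝ → (wit ν).car := ν.2.choose_spec.choose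

theorem witf_spec (ν : Idx) :
    (∀ a, 0 ≤ witf ν a ∧ ‖witf ν a‖ ≤ 1) ∧ ∀ t, ν.1 t = ‖eval (witf ν) t‖ :=
  ν.2.choose_spec.choose_spec

/-- generators in the big product -/
noncomputable def gen0 (a : ℝ) : Linf wit :=
  Linf.mk wit (fun ν => witf ν a) 1 fun ν => ((witf_spec ν).1 a).2

theorem gen0_nonneg (a : ℝ) : 0 ≤ gen0 a := by
  rw [Linf.le_iff, map_zero]
  exact fun ν => ((witf_spec ν).1 a).1

theorem gen0_norm (a : ℝ) : ‖gen0 a‖ ≤ 1 :=
  Linf.norm_le wit _ zero_le_one fun ν => ((witf_spec ν).1 a).2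

theorem co_eval_gen0 (t : Tm) (ν : Idx) : Linf.co wit (eval gen0 t) ν = eval (witf ν) t :=
  map_eval ((LinearMap.proj ν).comp (Linf.co wit)) (fun _ _ => rfl) gen0 t

theorem norm_eval_le {X : Type} [NormedAddCommGroup X] [NormedSpace ℝ X] [Lattice X]
    [IsBanachLattice X] (f : ℝ → X) (hf : ∀ a, 0 ≤ f a ∧ ‖f a‖ ≤ 1) (t : Tm) :
    ‖eval f t‖ ≤ ‖eval gen0 t‖ := by
  let ν : Idx := ⟨fun t => ‖eval f t‖, ⟨X⟩, f, hf, fun _ => rfl⟩
  have h1 : ‖eval f t‖ = ‖eval (witf ν) t‖ := (witf_spec ν).2 t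
  rw [h1, ← co_eval_gen0]
  exact Linf.norm_co_le wit _ ν

/-- the span of evaluated terms -/
noncomputable def lc0 : (Tm →₀ ℝ) →ₗ[ℝ] Linf wit := Finsupp.linearCombination ℝ (eval gen0)

theorem range_lc0 : (LinearMap.range lc0 : Set (Linf wit)) = Set.range (eval gen0) := by
  ext y
  constructor
  · rintro ⟨x, rfl⟩
    obtain ⟨t, ht⟩ := exists_term x
    exact ⟨t, ht _ _⟩
  · rintro ⟨t, rfl⟩
    exact ⟨Finsupp.single t 1, by simp [lc0]⟩

/-- the closed sublattice generated by the generators -/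
noncomputable def PS : CSub (Linf wit) where
  sub := (LinearMap.range lc0).topologicalClosure
  sup_mem := by
    intro x y hx hy
    change x ∈ closure (LinearMap.range lc0 : Set (Linf wit)) at hx
    change y ∈ closure (LinearMap.range lc0 : Set (Linf wit)) at hy
    change x ⊔ y ∈ closure (LinearMap.range lc0 : Set (Linf wit))
    rw [range_lc0] at hx hy ⊢
    refine map_mem_closure₂ (f := fun a b : Linf wit => a ⊔ b) continuous_sup hx hy ?_
    rintro _ ⟨s, rfl⟩ _ ⟨t, rfl⟩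
    exact ⟨Tm.sup s t, rfl⟩
  closed := Submodule.isClosed_topologicalClosure _

/-- the free Banach lattice on positive generators -/
abbrev PP : Type := PS.T

theorem eval_mem (t : Tm) : eval gen0 t ∈ PS.sub := by
  refine Submodule.le_topologicalClosure _ ?_
  change eval gen0 t ∈ (LinearMap.range lc0 : Set (Linf wit))
  rw [range_lc0]
  exact ⟨t, rfl⟩

/-- the generators -/
noncomputable def gen (a : ℝ) : PP := PS.mk' (gen0 a) (eval_mem (Tm.var a))

theorem gen_nonneg (a : ℝ) : 0 ≤ gen a := by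
  rw [PS.incl_le, map_zero]
  exact gen0_nonneg a

theorem gen_norm (a : ℝ) : ‖gen a‖ ≤ 1 := gen0_norm a

theorem incl_eval (t : Tm) : PS.incl (eval gen t) = eval gen0 t :=
  map_eval (PS.incl : PP →ₗ[ℝ] Linf wit) (fun x y => (PS.incl_hom x y).1) gen t

theorem denseRange_eval : DenseRange (eval gen) := by
  intro x
  have hx : PS.incl x ∈ closure (LinearMap.range lc0 : Set (Linf wit)) := PS.incl_mem x
  rw [range_lc0] at hx
  rw [Metric.mem_closure_iff] at hx ⊢
  intro ε hε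
  obtain ⟨_, ⟨t, rfl⟩, ht⟩ := hx ε hε
  refine ⟨_, ⟨t, rfl⟩, ?_⟩
  rw [dist_eq_norm] at ht ⊢
  rw [← PS.norm_incl, map_sub, incl_eval]
  exact ht

section Univ

variable {X : Type} [NormedAddCommGroup X] [NormedSpace ℝ X] [Lattice X] [IsBanachLattice X]

theorem hom_ext {S T : PP →L[ℝ] X} (hS : IsLatticeHom S) (hT : IsLatticeHom T)
    (h : ∀ a, S (gen a) = T (gen a)) : S = T := by
  apply DFunLike.coe_injective
  refine denseRange_eval.equalizer S.continuous T.continuous (funext fun t => ?_)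
  have e1 := map_eval (S : PP →ₗ[ℝ] X) (fun x y => (hS x y).1) gen t
  have e2 := map_eval (T : PP →ₗ[ℝ] X) (fun x y => (hT x y).1) gen t
  simp only [ContinuousLinearMap.coe_coe] at e1 e2
  simp only [Function.comp, e1, e2, h]

theorem exists_hom_one (f : ℝ → X) (hf : ∀ a, 0 ≤ f a ∧ ‖f a‖ ≤ 1) :
    ∃ T : PP →L[ℝ] X, IsLatticeHom T ∧ (∀ a, T (gen a) = f a) ∧ ‖T‖ ≤ 1 := by
  let F : (Tm →₀ ℝ) →ₗ[ℝ] X := Finsupp.linearCombination ℝ (eval f)
  let E : (Tm →₀ ℝ) →ₗ[ℝ] PP := Finsupp.linearCombination ℝ (eval gen)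
  have hE : DenseRange E := by
    refine denseRange_eval.mono ?_
    rintro _ ⟨t, rfl⟩
    exact ⟨Finsupp.single t 1, by simp [E]⟩
  have hb : ∀ x, ‖F x‖ ≤ 1 * ‖E x‖ := by
    intro x
    obtain ⟨t, ht⟩ := exists_term x
    rw [one_mul, ← ht X f, ← ht PP gen, ← PS.norm_incl, incl_eval]
    exact norm_eval_le f hf t
  have hev : ∀ t, F.extendOfNorm E (eval gen t) = eval f t := by
    intro t
    have := LinearMap.extendOfNorm_eq hE ⟨1, hb⟩ (Finsupp.single t 1)
    simpa [E, F] using this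
  refine ⟨F.extendOfNorm E, isLatticeHom_of_sup fun x y => ?_, fun a => hev (Tm.var a),
    LinearMap.opNorm_extendOfNorm_le hE zero_le_one hb⟩
  refine denseRange_eval.induction_on₂
    (p := fun x y => F.extendOfNorm E (x ⊔ y) = F.extendOfNorm E x ⊔ F.extendOfNorm E y)
    (isClosed_eq (by fun_prop) (by fun_prop)) (fun s t => ?_) x y
  rw [hev, hev]
  exact hev (Tm.sup s t)

theorem exists_hom (f : ℝ → X) {C : ℝ} (hC : 0 < C) (hf : ∀ a, 0 ≤ f a ∧ ‖f a‖ ≤ C) :
    ∃ T : PP →L[ℝ] X, IsLatticeHom T ∧ (∀ a, T (gen a) = f a) ∧ ‖T‖ ≤ C := by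
  obtain ⟨T, hT, hTf, hn⟩ := exists_hom_one (fun a => C⁻¹ • f a) fun a =>
    ⟨smul_nonneg (inv_nonneg.2 hC.le) (hf a).1, by
      rw [norm_smul, Real.norm_of_nonneg (inv_nonneg.2 hC.le), inv_mul_le_iff₀ hC, mul_one]
      exact (hf a).2⟩
  refine ⟨C • T, isLatticeHom_of_sup fun x y => ?_, fun a => ?_, ?_⟩
  · simp only [smul_apply, (hT x y).1]
    exact (OrderIso.smulRight (β := X) hC).map_sup _ _
  · simp only [smul_apply, hTf, smul_inv_smul₀ hC.ne']
  · rw [norm_smul, Real.norm_of_nonneg hC.le]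
    exact mul_le_of_le_one_right hC.le hn

theorem norm_hom_le {T : PP →L[ℝ] X} (hT : IsLatticeHom T) {C : ℝ} (hC : 0 < C)
    (h : ∀ a, ‖T (gen a)‖ ≤ C) : ‖T‖ ≤ C := by
  obtain ⟨S, hS, hSf, hn⟩ := exists_hom (fun a => T (gen a)) hC fun a =>
    ⟨by simpa using hT.mono (gen_nonneg a), h a⟩
  rwa [hom_ext hT hS fun a => (hSf a).symm]

end Univ

end Pool.Agent.MP_be51b2_an

end

-- part MP_be51b2_an.Main
section

/-!
The free Banach lattice on uncountably many positive generators is projective, has no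
topological order unit and is not free.
-/

namespace Pool.Agent.MP_be51b2_an

theorem projective_PP : IsProjective PP := by
  intro X _ _ _ _ Y _ _ _ _ Q hQ T hT ε hε
  rcases (norm_nonneg T).eq_or_lt with h0 | hpos
  · have hT0 : T = 0 := norm_eq_zero.1 h0.symm
    refine ⟨0, fun x y => by simp, by simp [hT0], by simp [hT0]⟩
  have hlift : ∀ a, ∃ x : X, (0 ≤ x ∧ ‖x‖ ≤ (1 + ε) * ‖T‖) ∧ Q x = T (gen a) := by
    intro a
    obtain ⟨x₀, hx₀⟩ := hQ.2.1 (T (gen a))
    have h1 : ‖T (gen a)‖ ≤ ‖T‖ :=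
      (T.le_opNorm _).trans (mul_le_of_le_one_right hpos.le (gen_norm a))
    have h2 : Metric.infDist x₀ {z | Q z = 0} < (1 + ε) * ‖T‖ := by
      rw [← hQ.2.2, hx₀]
      nlinarith [mul_pos hε hpos]
    obtain ⟨z, hz, hzd⟩ := (Metric.infDist_lt_iff (s := {z | Q z = 0}) ⟨0, map_zero Q⟩).1 h2
    have hz' : Q z = 0 := hz
    refine ⟨|x₀ - z|, ⟨abs_nonneg _, ?_⟩, ?_⟩
    · rw [norm_abs_eq_norm, ← dist_eq_norm]
      exact hzd.le
    · rw [hQ.1.map_abs, map_sub, hz', sub_zero, hx₀]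
      exact abs_of_nonneg (by simpa using hT.mono (gen_nonneg a))
  choose x hx hQx using hlift
  obtain ⟨S, hS, hSf, hn⟩ := exists_hom x (by positivity) hx
  refine ⟨S, hS, hom_ext (hQ.1.comp hS) hT fun a => ?_, hn⟩
  rw [ContinuousLinearMap.comp_apply, hSf, hQx]

/-- the coordinate homomorphism -/
theorem exists_coord (a₀ : ℝ) : ∃ φ : PP →L[ℝ] ℝ, IsLatticeHom φ ∧ φ (gen a₀) = 1 ∧
    ∀ a, a ≠ a₀ → φ (gen a) = 0 := by
  classical
  obtain ⟨φ, hφ, hf, -⟩ := exists_hom (fun a => if a = a₀ then (1 : ℝ) else 0) one_pos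
    fun a => by split_ifs <;> simp
  exact ⟨φ, hφ, by simp [hf], fun a ha => by simp [hf, ha]⟩

theorem no_unit (e : PP) : ¬ IsTopOrderUnit e := by
  rintro ⟨-, he⟩
  obtain ⟨u, hu, hlim⟩ := mem_closure_iff_seq_limit.1 (denseRange_eval e)
  choose t ht using hu
  have hc : (⋃ n, vars (t n)).Countable := Set.countable_iUnion fun n => vars_countable _
  obtain ⟨a₀, ha₀⟩ : ∃ a₀, a₀ ∉ ⋃ n, vars (t n) := by
    by_contra h
    push Not at h
    exact Set.not_countable_univ (hc.mono fun a _ => h a)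
  obtain ⟨φ, hφ, h1, h0⟩ := exists_coord a₀
  have hun : ∀ n, φ (u n) = 0 := by
    intro n
    have e1 := map_eval (φ : PP →ₗ[ℝ] ℝ) (fun x y => (hφ x y).1) gen (t n)
    simp only [ContinuousLinearMap.coe_coe] at e1
    rw [← ht n, e1]
    refine eval_eq_zero _ _ fun a ha => h0 a ?_
    rintro rfl
    exact ha₀ (Set.mem_iUnion.2 ⟨n, ha⟩)
  have hφe : φ e = 0 := by
    have := (φ.continuous.tendsto e).comp hlim
    have h2 : φ ∘ u = fun _ => 0 := funext hun
    rw [h2] at this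
    exact tendsto_nhds_unique this tendsto_const_nhds
  have hJ := he (LinearMap.ker (φ : PP →ₗ[ℝ] ℝ)) ⟨φ.isClosed_ker, fun x y hxy hy => by
    have hy' : φ y = 0 := hy
    have := hφ.mono hxy
    rw [hφ.map_abs, hφ.map_abs, hy', abs_zero] at this
    exact abs_nonpos_iff.1 this⟩ hφe
  have : gen a₀ ∈ LinearMap.ker (φ : PP →ₗ[ℝ] ℝ) := hJ ▸ Submodule.mem_top
  have h3 : φ (gen a₀) = 0 := this
  rw [h1] at h3
  exact one_ne_zero h3

section NotFree

variable {P : Type} [NormedAddCommGroup P] [NormedSpace ℝ P] [Lattice P] [IsBanachLattice P]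
  {A : Type*} [Nonempty A] {δ : A → P}

theorem IsFreeOn.sub_eq_top (h : IsFreeOn δ) (S : CSub P) (hS : ∀ a, δ a ∈ S.sub) (x : P) :
    x ∈ S.sub := by
  have hb : ∀ c : ℝ, BddAbove (Set.range fun _ : A => c) := fun c =>
    ⟨c, by rintro _ ⟨_, rfl⟩; exact le_rfl⟩
  have hn : ∀ a, ‖S.mk' (δ a) (hS a)‖ = 1 := fun a => h.1 a
  obtain ⟨T, ⟨hT, hTf, hTn⟩, -⟩ := h.2 S.T (fun a => S.mk' (δ a) (hS a))
    (by simp only [hn]; exact hb 1)
  simp only [hn, ciSup_const] at hTn
  obtain ⟨U, -, hU⟩ := h.2 P δ (by simp only [h.1]; exact hb 1)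
  simp only [h.1, ciSup_const] at hU
  obtain ⟨a⟩ := ‹Nonempty A›
  have lower : ∀ V : P →L[ℝ] P, V (δ a) = δ a → 1 ≤ ‖V‖ := by
    intro V hV
    have := V.le_opNorm (δ a)
    rwa [hV, h.1, mul_one] at this
  have e1 := hU (S.incl.comp T) ⟨S.incl_hom.comp hT, fun a => by
    rw [ContinuousLinearMap.comp_apply, hTf]; rfl, le_antisymm ?_ (lower _ (by
      rw [ContinuousLinearMap.comp_apply, hTf]; rfl))⟩
  · have e2 := hU (ContinuousLinearMap.id ℝ P) ⟨isLatticeHom_id, fun _ => rfl,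
      le_antisymm ContinuousLinearMap.norm_id_le (lower _ rfl)⟩
    have e3 : S.incl (T x) = x := by
      have := congrArg (fun V : P →L[ℝ] P => V x) (e1.trans e2.symm)
      exact this
    rw [← e3]
    exact S.incl_mem _
  · refine ContinuousLinearMap.opNorm_le_bound _ zero_le_one fun y => ?_
    rw [ContinuousLinearMap.comp_apply, S.norm_incl, ← hTn]
    exact T.le_opNorm y

theorem IsFreeOn.norm_eq (h : IsFreeOn δ) {X : Type} [NormedAddCommGroup X] [NormedSpace ℝ X]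
    [Lattice X] [IsBanachLattice X] {Φ : P →L[ℝ] X} (hΦ : IsLatticeHom Φ) :
    ‖Φ‖ = ⨆ a, ‖Φ (δ a)‖ := by
  obtain ⟨T, ⟨hT, hTf, hTn⟩, -⟩ := h.2 X (fun a => Φ (δ a)) ⟨‖Φ‖, by
    rintro _ ⟨a, rfl⟩
    simpa [h.1] using Φ.le_opNorm (δ a)⟩
  let S : CSub P :=
    { sub := LinearMap.eqLocus (Φ : P →ₗ[ℝ] X) (T : P →ₗ[ℝ] X)
      sup_mem := fun x y hx hy => by
        have hx' : Φ x = T x := hx
        have hy' : Φ y = T y := hy
        change Φ (x ⊔ y) = T (x ⊔ y)
        rw [(hΦ x y).1, (hT x y).1, hx', hy']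
      closed := isClosed_eq Φ.continuous T.continuous }
  have : Φ = T := ContinuousLinearMap.ext fun x =>
    h.sub_eq_top S (fun a => (hTf a).symm) x
  rw [← hTn, this]

end NotFree

theorem not_free {A : Type*} [Nonempty A] (δ : A → PP) : ¬ IsFreeOn δ := by
  intro h
  have hsign : ∀ c : ℝ, |c| = 1 → ∃ φ : PP →L[ℝ] ℝ, IsLatticeHom φ ∧ (∀ a, φ (δ a) = c) ∧
      ‖φ‖ = 1 := by
    intro c hc
    obtain ⟨φ, ⟨h1, h2, h3⟩, -⟩ := h.2 ℝ (fun _ => c) ⟨‖c‖, by rintro _ ⟨_, rfl⟩; exact le_rfl⟩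
    exact ⟨φ, h1, h2, by simpa [hc] using h3⟩
  have key : ∀ (φ φ' : PP →L[ℝ] ℝ), IsLatticeHom φ → IsLatticeHom φ' → ‖φ'‖ = 1 →
      (∀ a, |φ (δ a)| = |φ' (δ a)|) → ∀ a, φ (gen a) ≤ φ' (gen a) := by
    intro φ φ' hφ hφ' hn hab a
    obtain ⟨ψ, hψ, h1, h0⟩ := exists_coord a
    have p0 : 0 ≤ φ (gen a) := by simpa using hφ.mono (gen_nonneg a)
    have p1 : 0 ≤ φ' (gen a) := by simpa using hφ'.mono (gen_nonneg a)
    have e1 : ‖pairMap φ ψ‖ = ‖pairMap φ' ψ‖ := by
      rw [h.norm_eq (pairMap_hom hφ hψ), h.norm_eq (pairMap_hom hφ' hψ)]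
      simp only [norm_pairMap_apply, hab]
    have e2 : φ (gen a) + 1 ≤ ‖pairMap φ ψ‖ := by
      have := (pairMap φ ψ).le_opNorm (gen a)
      rw [norm_pairMap_apply, h1, abs_one, abs_of_nonneg p0] at this
      exact this.trans (mul_le_of_le_one_right (norm_nonneg _) (gen_norm a))
    have e3 : ‖pairMap φ' ψ‖ ≤ φ' (gen a) + 1 := by
      refine norm_hom_le (pairMap_hom hφ' hψ) (by positivity) fun b => ?_
      rw [norm_pairMap_apply]
      by_cases hb : b = a
      · rw [hb, h1, abs_one, abs_of_nonneg p1]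
      · rw [h0 b hb, abs_zero, add_zero]
        have := φ'.le_opNorm (gen b)
        rw [hn, one_mul, Real.norm_eq_abs] at this
        linarith [gen_norm b]
    linarith
  obtain ⟨φ, hφ, hφv, hφn⟩ := hsign 1 abs_one
  obtain ⟨φ', hφ', hφv', hφn'⟩ := hsign (-1) (by simp)
  have hab : ∀ a, |φ (δ a)| = |φ' (δ a)| := fun a => by simp [hφv, hφv']
  have : φ = φ' := hom_ext hφ hφ' fun a =>
    le_antisymm (key φ φ' hφ hφ' hφn' hab a) (key φ' φ hφ' hφ hφn (fun a => (hab a).symm) a)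
  obtain ⟨a⟩ := ‹Nonempty A›
  have h1 := hφv a
  rw [this, hφv'] at h1
  norm_num at h1

end Pool.Agent.MP_be51b2_an

end
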